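import Pool.Agent.Helper45.CF.GoalsC

/-!
Packet 12622 (CF2-TAUV, MP_d97caa_an): `t : S_TAUV`, by helper39.
-/

open scoped Topology
open TopologicalSpace

namespace Pool.Agent.Helper39.CF2.TAUV

open Pool.Agent.Helper45.CF Pool.Agent.Helper34.CAR Pool.Agent.Helper39.CR

noncomputable section

variable {S B' : Type} [Fintype S] [DecidableEq S] [CStarAlgebra B']

theorem mc_eq (a : Mt S ℂ) : (Mt.map (algC B') a : Mt S B') = Mt.scal fun p q => a p q := rfl

theorem mc_inj [Nontrivial B'] : Function.Injective (Mt.map (algC B') : Mt S ℂ →⋆ₐ[ℂ] Mt S B') := by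
  intro a b h
  ext p q
  have h1 : algebraMap ℂ B' (a p q) = algebraMap ℂ B' (b p q) :=
    congrArg (fun m : Mt S B' => m p q) h
  exact (algebraMap ℂ B').injective h1

theorem t : S_TAUV := by
  intro X S B' _ _ _ _ _ _ v hv hv'
  have hvx : ∀ x, star (v x) * v x = 1 := fun x => DFunLike.congr_fun hv x
  have hvx' : ∀ x, v x * star (v x) = 1 := fun x => DFunLike.congr_fun hv' x
  have hcont : Continuous (Mt.map (algC B') : Mt S ℂ →⋆ₐ[ℂ] Mt S B') :=
    AddMonoidHomClass.continuous_of_bound _ 1 fun x => by
      simpa using NonUnitalStarAlgHom.norm_apply_le (Mt.map (algC B')) x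
  let τ : C(X, Mt S ℂ) →⋆ₐ[ℂ] C(X, Mt S B') :=
    { toFun := fun z => ⟨fun x => star (v x) * Mt.map (algC B') (z x) * v x,
        ((continuous_star.comp v.continuous).mul (hcont.comp z.continuous)).mul v.continuous⟩
      map_one' := by
        ext1 x
        show star (v x) * Mt.map (algC B') (1 : Mt S ℂ) * v x = 1
        rw [map_one, mul_one, hvx]
      map_mul' := by
        intro a b
        ext1 x
        show star (v x) * Mt.map (algC B') (a x * b x) * v x =
          (star (v x) * Mt.map (algC B') (a x) * v x) * (star (v x) * Mt.map (algC B') (b x) * v x)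
        rw [map_mul]
        simp only [mul_assoc]
        rw [← mul_assoc (v x) (star (v x)), hvx', one_mul]
      map_zero' := by
        ext1 x
        show star (v x) * Mt.map (algC B') (0 : Mt S ℂ) * v x = 0
        rw [map_zero, mul_zero, zero_mul]
      map_add' := by
        intro a b
        ext1 x
        show star (v x) * Mt.map (algC B') (a x + b x) * v x =
          star (v x) * Mt.map (algC B') (a x) * v x + star (v x) * Mt.map (algC B') (b x) * v x
        rw [map_add, mul_add, add_mul]
      commutes' := by
        intro c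
        ext1 x
        show star (v x) * Mt.map (algC B') (algebraMap ℂ (Mt S ℂ) c) * v x =
          algebraMap ℂ (Mt S B') c
        rw [AlgHomClass.commutes, ← Algebra.commutes, mul_assoc, hvx, mul_one]
      map_star' := by
        intro a
        ext1 x
        show star (v x) * Mt.map (algC B') (star (a x)) * v x =
          star (star (v x) * Mt.map (algC B') (a x) * v x)
        rw [map_star, star_mul, star_mul, star_star, mul_assoc] }
  refine ⟨τ, fun z x => ⟨rfl, ?_⟩⟩
  show ‖star (v x) * Mt.map (algC B') (z x) * v x‖ = ‖z x‖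
  have hu : v x ∈ unitary (Mt S B') := Unitary.mem_iff.mpr ⟨hvx x, hvx' x⟩
  rw [CStarRing.norm_mul_mem_unitary _ hu, CStarRing.norm_mem_unitary_mul _ (Unitary.star_mem hu)]
  exact NonUnitalStarAlgHom.norm_map _ mc_inj _

end

end Pool.Agent.Helper39.CF2.TAUV
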